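import Pool.Agent.Q117.YT.Equivs

/-! Formulas for the numbers of paths, stars and Y-trees in a tree. -/

namespace Pool.Agent.Q117.YT

open SimpleGraph Finset

section copies

variable {V W : Type}

theorem card_fiber [Fintype V] [Fintype W] (G : SimpleGraph V) (H : SimpleGraph W)
    (S : G.Subgraph) (hS : Nonempty (H ≃g S.coe)) :
    Nat.card {f : Copy H G // f.toSubgraph = S} = Nat.card (H ≃g H) := by
  classical
  obtain ⟨e₀⟩ := hS
  have key : ∀ e : H ≃g S.coe,
      (⟨S.hom.comp e.toHom, Subgraph.hom_injective.comp e.injective⟩ : Copy H G).toSubgraph = S := by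
    intro e
    simp [Copy.toSubgraph, Subgraph.map_comp]
  let tr : (H ≃g H) → (H ≃g S.coe) := fun a => a.trans e₀
  let Φ : (H ≃g H) → {f : Copy H G // f.toSubgraph = S} := fun a =>
    ⟨⟨S.hom.comp (tr a).toHom, Subgraph.hom_injective.comp (tr a).injective⟩,
      key (tr a)⟩
  have hinj : Function.Injective Φ := by
    intro a b hab
    have h1 : ∀ x, S.hom (e₀ (a x)) = S.hom (e₀ (b x)) := by
      intro x
      have := congrArg (fun f : {f : Copy H G // f.toSubgraph = S} => f.1 x) hab
      exact this
    ext x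
    exact e₀.injective (Subgraph.hom_injective (h1 x))
  have hsurj : Function.Surjective Φ := by
    rintro ⟨f, rfl⟩
    refine ⟨f.isoToSubgraph.trans e₀.symm, ?_⟩
    apply Subtype.ext
    apply Copy.ext
    intro x
    change (f.toSubgraph).hom (e₀ (e₀.symm (f.isoToSubgraph x))) = f x
    rw [RelIso.apply_symm_apply]
    rfl
  exact (Nat.card_congr (Equiv.ofBijective Φ ⟨hinj, hsurj⟩)).symm

theorem card_copy_eq [Fintype V] [Fintype W] (G : SimpleGraph V) (H : SimpleGraph W) :
    Nat.card (Copy H G) = Nat.card (H ≃g H) * G.copyCount H := by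
  classical
  have h1 : Nat.card (Copy H G) = ∑ S : G.Subgraph, Nat.card {f : Copy H G // f.toSubgraph = S} := by
    rw [← Nat.card_sigma]
    exact Nat.card_congr (Equiv.sigmaFiberEquiv (fun f : Copy H G => f.toSubgraph)).symm
  rw [h1]
  have h2 : ∀ S : G.Subgraph, Nat.card {f : Copy H G // f.toSubgraph = S}
      = if Nonempty (H ≃g S.coe) then Nat.card (H ≃g H) else 0 := by
    intro S
    split_ifs with h
    · exact card_fiber G H S h
    · rw [Nat.card_eq_zero]
      left
      constructor
      rintro ⟨f, hf⟩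
      exact h (hf ▸ ⟨f.isoToSubgraph⟩)
  rw [Finset.sum_congr rfl (fun S _ => h2 S), ← Finset.sum_filter, Finset.sum_const, smul_eq_mul,
    mul_comm]
  congr 1

end copies

/-! ### automorphisms -/

theorem card_aut {n : ℕ} (H : SimpleGraph (Fin n)) [DecidableRel H.Adj] :
    Nat.card (H ≃g H) = ((univ : Finset (Equiv.Perm (Fin n))).filter
      (fun σ => ∀ a b, H.Adj (σ a) (σ b) ↔ H.Adj a b)).card := by
  classical
  rw [← Fintype.card_subtype, ← Nat.card_eq_fintype_card]
  apply Nat.card_congr
  exact
    { toFun := fun e => ⟨e.toEquiv, fun a b => e.map_rel_iff'⟩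
      invFun := fun σ => ⟨σ.1, fun {a b} => σ.2 a b⟩
      left_inv := fun e => rfl
      right_inv := fun σ => rfl }

theorem aut_star : Nat.card (starT ≃g starT) = 24 := by
  rw [card_aut]; decide +kernel

theorem aut_y : Nat.card (yT ≃g yT) = 2 := by
  rw [card_aut]; decide +kernel

theorem aut_path : Nat.card (pathGraph 5 ≃g pathGraph 5) = 2 := by
  rw [card_aut]; decide +kernel

end Pool.Agent.Q117.YT
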