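import Mathlib

/-! Local profiles of trees: the three trees on five vertices. -/

namespace Pool.Agent.Q117.YT

open SimpleGraph

/-- the star `K_{1,4}`: the vertex `0` is joined to `1,2,3,4` -/
def starT : SimpleGraph (Fin 5) := SimpleGraph.fromRel (fun i j => i = 0 ∧ j ≠ 0)

/-- the Y-shaped tree: `0` is joined to `1, 2, 3` and `3` is joined to `4` -/
def yT : SimpleGraph (Fin 5) :=
  SimpleGraph.fromRel (fun i j => (i = 0 ∧ (j = 1 ∨ j = 2 ∨ j = 3)) ∨ (i = 3 ∧ j = 4))

instance : DecidableRel starT.Adj := by unfold starT; infer_instance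
instance : DecidableRel yT.Adj := by unfold yT; infer_instance

/-- number of `5`-vertex paths in `T` -/
noncomputable def cP {V : Type} [Fintype V] (T : SimpleGraph V) : ℕ := T.copyCount (pathGraph 5)

/-- number of stars `K_{1,4}` in `T` -/
noncomputable def cS {V : Type} [Fintype V] (T : SimpleGraph V) : ℕ := T.copyCount starT

/-- number of Y-shaped trees in `T` -/
noncomputable def cY {V : Type} [Fintype V] (T : SimpleGraph V) : ℕ := T.copyCount yT

end Pool.Agent.Q117.YT
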