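import Pool.Agent.Q117.YT.Defs

namespace Pool.Agent.Q117.YT

open SimpleGraph Finset

variable {V : Type} {G : SimpleGraph V}

theorem no_tri (hG : G.IsAcyclic) {a b c : V} (h1 : G.Adj a b) (h2 : G.Adj b c)
    (h3 : G.Adj c a) : False := by
  let p : G.Path a b := ⟨Walk.cons h1 Walk.nil, by simp [h1.ne]⟩
  let q : G.Path a b := ⟨Walk.cons h3.symm (Walk.cons h2.symm Walk.nil), by
    simp [h1.ne, h2.ne.symm, h3.ne.symm]⟩
  have h := (hG.subsingleton_path a b).elim p q
  have h' := congrArg (fun r : G.Path a b => r.1.length) h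
  simp [p, q] at h'

theorem no_c4 (hG : G.IsAcyclic) {a b c d : V} (h1 : G.Adj a b) (h2 : G.Adj b c)
    (h3 : G.Adj c d) (h4 : G.Adj d a) (hac : a ≠ c) (hbd : b ≠ d) : False := by
  let p : G.Path a c := ⟨Walk.cons h1 (Walk.cons h2 Walk.nil), by simp [h1.ne, h2.ne, hac]⟩
  let q : G.Path a c := ⟨Walk.cons h4.symm (Walk.cons h3.symm Walk.nil), by
    simp [h4.ne.symm, h3.ne.symm, hac]⟩
  have h := (hG.subsingleton_path a c).elim p q
  have h' := congrArg (fun r : G.Path a c => r.1.getVert 1) h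
  simp [p, q] at h'
  exact hbd h'

theorem inj5 {x : Fin 5 → V} (h01 : x 0 ≠ x 1) (h02 : x 0 ≠ x 2) (h03 : x 0 ≠ x 3)
    (h04 : x 0 ≠ x 4) (h12 : x 1 ≠ x 2) (h13 : x 1 ≠ x 3) (h14 : x 1 ≠ x 4) (h23 : x 2 ≠ x 3)
    (h24 : x 2 ≠ x 4) (h34 : x 3 ≠ x 4) : Function.Injective x := by
  intro i j hij
  fin_cases i <;> fin_cases j <;>
    first
    | rfl
    | exact absurd hij h01 | exact absurd hij h02 | exact absurd hij h03 | exact absurd hij h04
    | exact absurd hij h12 | exact absurd hij h13 | exact absurd hij h14 | exact absurd hij h23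
    | exact absurd hij h24 | exact absurd hij h34
    | exact absurd hij h01.symm | exact absurd hij h02.symm | exact absurd hij h03.symm
    | exact absurd hij h04.symm | exact absurd hij h12.symm | exact absurd hij h13.symm
    | exact absurd hij h14.symm | exact absurd hij h23.symm | exact absurd hij h24.symm
    | exact absurd hij h34.symm

theorem star_hom {x : Fin 5 → V} (h1 : G.Adj (x 0) (x 1)) (h2 : G.Adj (x 0) (x 2))
    (h3 : G.Adj (x 0) (x 3)) (h4 : G.Adj (x 0) (x 4)) :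
    ∀ {i j}, starT.Adj i j → G.Adj (x i) (x j) := by
  intro i j hij
  fin_cases i <;> fin_cases j <;>
    first
    | exact absurd hij (by decide)
    | exact h1 | exact h2 | exact h3 | exact h4
    | exact h1.symm | exact h2.symm | exact h3.symm | exact h4.symm

theorem y_hom {x : Fin 5 → V} (h1 : G.Adj (x 0) (x 1)) (h2 : G.Adj (x 0) (x 2))
    (h3 : G.Adj (x 0) (x 3)) (h4 : G.Adj (x 3) (x 4)) :
    ∀ {i j}, yT.Adj i j → G.Adj (x i) (x j) := by
  intro i j hij
  fin_cases i <;> fin_cases j <;>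
    first
    | exact absurd hij (by decide)
    | exact h1 | exact h2 | exact h3 | exact h4
    | exact h1.symm | exact h2.symm | exact h3.symm | exact h4.symm

theorem pathGraph_adj' (i j : Fin 5) :
    (pathGraph 5).Adj i j ↔ (i.val + 1 = j.val ∨ j.val + 1 = i.val) := pathGraph_adj

instance : DecidableRel (pathGraph 5).Adj := fun i j => decidable_of_iff _ (pathGraph_adj' i j).symm

theorem path_hom {x : Fin 5 → V} (h1 : G.Adj (x 0) (x 1)) (h2 : G.Adj (x 1) (x 2))
    (h3 : G.Adj (x 2) (x 3)) (h4 : G.Adj (x 3) (x 4)) :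
    ∀ {i j}, (pathGraph 5).Adj i j → G.Adj (x i) (x j) := by
  intro i j hij
  fin_cases i <;> fin_cases j <;>
    first
    | exact absurd hij (by decide)
    | exact h1 | exact h2 | exact h3 | exact h4
    | exact h1.symm | exact h2.symm | exact h3.symm | exact h4.symm

/-- data for a star -/
abbrev StarD (G : SimpleGraph V) : Type := Σ v : V, (Fin 4 ↪ G.neighborSet v)

/-- data for a Y-tree: centre, its neighbour of degree two, the end beyond it, the two leaves -/
abbrev YD (G : SimpleGraph V) : Type :=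
  Σ v : V, Σ u : G.neighborSet v,
    {w : G.neighborSet u.1 // w.1 ≠ v} × (Fin 2 ↪ {x : G.neighborSet v // x ≠ u})

/-- data for a path: centre, its two neighbours and the ends -/
abbrev PD (G : SimpleGraph V) : Type :=
  Σ v : V, Σ p : {p : G.neighborSet v × G.neighborSet v // p.1 ≠ p.2},
    {w : G.neighborSet p.1.1.1 // w.1 ≠ v} × {w : G.neighborSet p.1.2.1 // w.1 ≠ v}

noncomputable def starE (G : SimpleGraph V) : Copy starT G ≃ StarD G where
  toFun f := ⟨f 0, ⟨fun i => ⟨f i.succ, f.toHom.map_adj (by revert i; decide)⟩, by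
    intro i j hij
    have := congrArg Subtype.val hij
    exact Fin.succ_injective _ (f.injective this)⟩⟩
  invFun x := ⟨⟨![x.1, (x.2 0).1, (x.2 1).1, (x.2 2).1, (x.2 3).1],
      star_hom (x.2 0).2 (x.2 1).2 (x.2 2).2 (x.2 3).2⟩, by
      have hv : ∀ i j : Fin 4, i ≠ j → (x.2 i).1 ≠ (x.2 j).1 := by
        intro i j hij h
        exact hij (x.2.injective (Subtype.ext h))
      exact inj5 (G.ne_of_adj (x.2 0).2) (G.ne_of_adj (x.2 1).2) (G.ne_of_adj (x.2 2).2)
        (G.ne_of_adj (x.2 3).2) (hv 0 1 (by decide)) (hv 0 2 (by decide)) (hv 0 3 (by decide))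
        (hv 1 2 (by decide)) (hv 1 3 (by decide)) (hv 2 3 (by decide))⟩
  left_inv f := by
    apply Copy.ext
    intro a
    fin_cases a <;> rfl
  right_inv x := by
    rcases x with ⟨v, e⟩
    refine Sigma.ext rfl (heq_of_eq ?_)
    apply DFunLike.ext
    intro i
    apply Subtype.ext
    fin_cases i <;> rfl

noncomputable def yE (hG : G.IsAcyclic) : Copy yT G ≃ YD G where
  toFun f := ⟨f 0, ⟨⟨f 3, f.toHom.map_adj (by decide)⟩,
    (⟨⟨f 4, f.toHom.map_adj (by decide)⟩, fun h => absurd (f.injective h) (by decide)⟩,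
     ⟨![⟨⟨f 1, f.toHom.map_adj (by decide)⟩,
          fun h => absurd (f.injective (congrArg Subtype.val h)) (by decide)⟩,
        ⟨⟨f 2, f.toHom.map_adj (by decide)⟩,
          fun h => absurd (f.injective (congrArg Subtype.val h)) (by decide)⟩], by
      intro i j hij
      fin_cases i <;> fin_cases j
      · rfl
      · exact absurd (f.injective (congrArg (fun z => z.1.1) hij)) (by decide)
      · exact absurd (f.injective (congrArg (fun z => z.1.1) hij)) (by decide)
      · rfl⟩)⟩⟩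
  invFun x := ⟨⟨![x.1, (x.2.2.2 0).1.1, (x.2.2.2 1).1.1, x.2.1.1, x.2.2.1.1.1],
      y_hom (x.2.2.2 0).1.2 (x.2.2.2 1).1.2 x.2.1.2 x.2.2.1.1.2⟩, by
      have hv : (x.2.2.2 0).1.1 ≠ (x.2.2.2 1).1.1 := by
        intro h
        exact absurd (x.2.2.2.injective (Subtype.ext (Subtype.ext h))) (by decide)
      have hu : ∀ i, (x.2.2.2 i).1.1 ≠ x.2.1.1 := fun i h => (x.2.2.2 i).2 (Subtype.ext h)
      have hw : ∀ i, (x.2.2.2 i).1.1 ≠ x.2.2.1.1.1 := by
        intro i h
        refine no_tri hG (x.2.2.2 i).1.2 ?_ (G.adj_symm x.2.1.2)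
        rw [h]
        exact G.adj_symm x.2.2.1.1.2
      exact inj5 (G.ne_of_adj (x.2.2.2 0).1.2) (G.ne_of_adj (x.2.2.2 1).1.2)
        (G.ne_of_adj x.2.1.2) x.2.2.1.2.symm hv (hu 0) (hw 0) (hu 1) (hw 1)
        (G.ne_of_adj x.2.2.1.1.2)⟩
  left_inv f := by
    apply Copy.ext
    intro a
    fin_cases a <;> rfl
  right_inv x := by
    rcases x with ⟨v, u, w, e⟩
    refine Sigma.ext rfl (heq_of_eq ?_)
    refine Sigma.ext rfl (heq_of_eq ?_)
    refine Prod.ext rfl ?_
    apply DFunLike.ext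
    intro i
    fin_cases i <;> rfl

noncomputable def pE (hG : G.IsAcyclic) : Copy (pathGraph 5) G ≃ PD G where
  toFun f := ⟨f 2, ⟨⟨(⟨f 1, f.toHom.map_adj (by decide)⟩, ⟨f 3, f.toHom.map_adj (by decide)⟩),
      fun h => absurd (f.injective (congrArg Subtype.val h)) (by decide)⟩,
    (⟨⟨f 0, f.toHom.map_adj (by decide)⟩, fun h => absurd (f.injective h) (by decide)⟩,
     ⟨⟨f 4, f.toHom.map_adj (by decide)⟩, fun h => absurd (f.injective h) (by decide)⟩)⟩⟩
  invFun x := ⟨⟨![x.2.2.1.1.1, x.2.1.1.1.1, x.1, x.2.1.1.2.1, x.2.2.2.1.1],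
      path_hom (x := ![x.2.2.1.1.1, x.2.1.1.1.1, x.1, x.2.1.1.2.1, x.2.2.2.1.1])
        (G.adj_symm x.2.2.1.1.2 : G.Adj x.2.2.1.1.1 x.2.1.1.1.1)
        (G.adj_symm x.2.1.1.1.2 : G.Adj x.2.1.1.1.1 x.1) x.2.1.1.2.2 x.2.2.2.1.2⟩, by
      have hv : x.2.1.1.1.1 ≠ x.2.1.1.2.1 := fun h => x.2.1.2 (Subtype.ext h)
      have h03 : x.2.2.1.1.1 ≠ x.2.1.1.2.1 := by
        intro h
        refine no_tri hG x.2.1.1.2.2 ?_ (G.adj_symm x.2.1.1.1.2)
        rw [← h]
        exact G.adj_symm x.2.2.1.1.2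
      have h14 : x.2.1.1.1.1 ≠ x.2.2.2.1.1 := by
        intro h
        refine no_tri hG x.2.1.1.1.2 ?_ (G.adj_symm x.2.1.1.2.2)
        rw [h]
        exact G.adj_symm x.2.2.2.1.2
      have h04 : x.2.2.1.1.1 ≠ x.2.2.2.1.1 := by
        intro h
        refine no_c4 hG x.2.1.1.1.2 x.2.2.1.1.2 ?_ (G.adj_symm x.2.1.1.2.2) x.2.2.1.2.symm hv
        rw [h]
        exact G.adj_symm x.2.2.2.1.2
      exact inj5 (G.ne_of_adj x.2.2.1.1.2).symm x.2.2.1.2 h03 h04
        (G.ne_of_adj x.2.1.1.1.2).symm hv h14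
        (G.ne_of_adj x.2.1.1.2.2) x.2.2.2.2.symm (G.ne_of_adj x.2.2.2.1.2)⟩
  left_inv f := by
    apply Copy.ext
    intro a
    fin_cases a <;> rfl
  right_inv x := by
    rcases x with ⟨v, p, w, e⟩
    rfl

end Pool.Agent.Q117.YT
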