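import Pool.Agent.Q117.YT.Formula

/-! A family of trees: a chain of double stars. -/

set_option linter.unusedSectionVars false

namespace Pool.Agent.Q117.YT

open SimpleGraph Finset

/-- the block: two adjacent centres `0`, `1`, each with six further neighbours -/
def blk (r t : Fin 14) : Prop :=
  (r = 0 ∧ 1 ≤ t ∧ t ≤ 7) ∨ (t = 0 ∧ 1 ≤ r ∧ r ≤ 7) ∨ (r = 1 ∧ 8 ≤ t) ∨ (t = 1 ∧ 8 ≤ r)

instance : DecidableRel blk := fun r t => by unfold blk; infer_instance

theorem blk_symm : ∀ r t : Fin 14, blk r t → blk t r := by decide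

theorem blk_irrefl : ∀ r : Fin 14, ¬ blk r r := by decide

/-- the tree made of `n + 1` blocks, consecutive ones linked through their vertices `8` and `2` -/
def tr (n : ℕ) : SimpleGraph (Fin (n + 1) × Fin 14) where
  Adj x y := (x.1 = y.1 ∧ blk x.2 y.2) ∨ (x.2 = 8 ∧ y.2 = 2 ∧ x.1.val + 1 = y.1.val)
    ∨ (x.2 = 2 ∧ y.2 = 8 ∧ y.1.val + 1 = x.1.val)
  symm := ⟨by
    rintro ⟨j, r⟩ ⟨k, t⟩ h
    rcases h with ⟨h1, h2⟩ | ⟨h1, h2, h3⟩ | ⟨h1, h2, h3⟩
    · refine Or.inl ⟨h1.symm, ?_⟩
      exact blk_symm r t h2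
    · exact Or.inr (Or.inr ⟨h2, h1, h3⟩)
    · exact Or.inr (Or.inl ⟨h2, h1, h3⟩)⟩
  loopless := ⟨by
    rintro ⟨j, r⟩ h
    rcases h with ⟨h1, h2⟩ | ⟨h1, h2, h3⟩ | ⟨h1, h2, h3⟩
    · exact blk_irrefl r h2
    · simp at h3
    · simp at h3⟩

instance (n : ℕ) : DecidableRel (tr n).Adj := fun x y => by
  unfold tr; infer_instance

/-- contribution of the next block -/
def nxt {n : ℕ} (f : Fin (n + 1) × Fin 14 → ℤ) (j : Fin (n + 1)) : ℤ :=
  if h : j.val + 1 < n + 1 then f (⟨j.val + 1, h⟩, 2) else 0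

/-- contribution of the previous block -/
def prv {n : ℕ} (f : Fin (n + 1) × Fin 14 → ℤ) (j : Fin (n + 1)) : ℤ :=
  if h : 1 ≤ j.val then f (⟨j.val - 1, by omega⟩, 8) else 0

theorem nbsum {n : ℕ} (f : Fin (n + 1) × Fin 14 → ℤ) (j : Fin (n + 1)) (r : Fin 14) :
    ∑ u ∈ (tr n).neighborFinset (j, r), f u
      = (∑ t, if blk r t then f (j, t) else 0) + (if r = 8 then nxt f j else 0)
        + (if r = 2 then prv f j else 0) := by
  have e : ∑ u ∈ (tr n).neighborFinset (j, r), f u
      = ∑ u, if (tr n).Adj (j, r) u then f u else 0 := by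
    rw [← Finset.sum_filter]
    apply Finset.sum_congr
    · ext u; simp
    · intro _ _; rfl
  rw [e]
  have e2 : ∀ u : Fin (n + 1) × Fin 14, (if (tr n).Adj (j, r) u then f u else 0)
      = (if j = u.1 ∧ blk r u.2 then f u else 0)
        + (if r = 8 ∧ u.2 = 2 ∧ j.val + 1 = u.1.val then f u else 0)
        + (if r = 2 ∧ u.2 = 8 ∧ u.1.val + 1 = j.val then f u else 0) := by
    rintro ⟨k, t⟩
    by_cases h1 : j = k ∧ blk r t
    · have h2 : ¬ (r = 8 ∧ t = 2 ∧ j.val + 1 = k.val) := by
        rintro ⟨_, _, h⟩; rw [h1.1] at h; omega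
      have h3 : ¬ (r = 2 ∧ t = 8 ∧ k.val + 1 = j.val) := by
        rintro ⟨_, _, h⟩; rw [h1.1] at h; omega
      have h : (tr n).Adj (j, r) (k, t) := Or.inl h1
      rw [if_pos h, if_pos h1, if_neg h2, if_neg h3, add_zero, add_zero]
    · by_cases h2 : r = 8 ∧ t = 2 ∧ j.val + 1 = k.val
      · have h3 : ¬ (r = 2 ∧ t = 8 ∧ k.val + 1 = j.val) := by
          rintro ⟨_, _, h⟩; omega
        have h : (tr n).Adj (j, r) (k, t) := Or.inr (Or.inl h2)
        rw [if_pos h, if_neg h1, if_pos h2, if_neg h3, add_zero, zero_add]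
      · by_cases h3 : r = 2 ∧ t = 8 ∧ k.val + 1 = j.val
        · have h : (tr n).Adj (j, r) (k, t) := Or.inr (Or.inr h3)
          rw [if_pos h, if_neg h1, if_neg h2, if_pos h3, zero_add, zero_add]
        · have h : ¬ (tr n).Adj (j, r) (k, t) := by
            rintro (h | h | h)
            · exact h1 h
            · exact h2 h
            · exact h3 h
          rw [if_neg h, if_neg h1, if_neg h2, if_neg h3, add_zero, add_zero]
  rw [Finset.sum_congr rfl (fun u _ => e2 u), Finset.sum_add_distrib, Finset.sum_add_distrib]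
  congr 1
  · congr 1
    · rw [Fintype.sum_prod_type, Finset.sum_eq_single j]
      · apply Finset.sum_congr rfl
        intro t _
        simp
      · intro k _ hk
        apply Finset.sum_eq_zero
        intro t _
        rw [if_neg]
        rintro ⟨h, _⟩
        exact hk h.symm
      · intro h; exact absurd (Finset.mem_univ _) h
    · by_cases hr : r = 8
      · rw [if_pos hr]
        unfold nxt
        split_ifs with h
        · rw [Finset.sum_eq_single (⟨j.val + 1, h⟩, 2)]
          · simp [hr]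
          · rintro ⟨k, t⟩ _ hk
            rw [if_neg]
            rintro ⟨_, h2, h3⟩
            exact hk (Prod.ext (Fin.ext h3.symm) h2)
          · intro h; exact absurd (Finset.mem_univ _) h
        · apply Finset.sum_eq_zero
          rintro ⟨k, t⟩ _
          rw [if_neg]
          rintro ⟨_, h2, h3⟩
          have h3' : j.val + 1 = k.val := h3
          have := k.2
          omega
      · rw [if_neg hr]
        apply Finset.sum_eq_zero
        intro u _
        rw [if_neg]
        rintro ⟨h, _⟩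
        exact hr h
  · by_cases hr : r = 2
    · rw [if_pos hr]
      unfold prv
      split_ifs with h
      · rw [Finset.sum_eq_single (⟨j.val - 1, by omega⟩, 8)]
        · simp [hr]; omega
        · rintro ⟨k, t⟩ _ hk
          rw [if_neg]
          rintro ⟨_, h2, h3⟩
          have h3' : k.val + 1 = j.val := h3
          exact hk (Prod.ext (Fin.ext (by simp; omega)) h2)
        · intro h; exact absurd (Finset.mem_univ _) h
      · apply Finset.sum_eq_zero
        rintro ⟨k, t⟩ _
        rw [if_neg]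
        rintro ⟨_, h2, h3⟩
        have h3' : k.val + 1 = j.val := h3
        omega
    · rw [if_neg hr]
      apply Finset.sum_eq_zero
      intro u _
      rw [if_neg]
      rintro ⟨h, _⟩
      exact hr h

/-- does the block have a predecessor -/
def pb {n : ℕ} (j : Fin (n + 1)) : Bool := decide (1 ≤ j.val)

/-- does the block have a successor -/
def qb {n : ℕ} (j : Fin (n + 1)) : Bool := decide (j.val + 1 < n + 1)

/-- degree minus one in the block -/
def A (p q : Bool) (r : Fin 14) : ℤ :=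
  if r = 0 ∨ r = 1 then 6 else if r = 8 then (if q then 1 else 0)
    else if r = 2 then (if p then 1 else 0) else 0

/-- neighbour sum of `A` -/
def Sm (p q : Bool) (r : Fin 14) : ℤ :=
  (∑ t, if blk r t then A p q t else 0) + (if r = 8 then (if q then 1 else 0) else 0)
    + (if r = 2 then (if p then 1 else 0) else 0)

/-- neighbour sum of `A ^ 2` -/
def Sq (p q : Bool) (r : Fin 14) : ℤ :=
  (∑ t, if blk r t then A p q t ^ 2 else 0) + (if r = 8 then (if q then 1 else 0) else 0)
    + (if r = 2 then (if p then 1 else 0) else 0)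

theorem deg_aux : ∀ (p q : Bool) (r : Fin 14), (∑ t, if blk r t then (1 : ℤ) else 0)
    + (if r = 8 then (if q then 1 else 0) else 0) + (if r = 2 then (if p then 1 else 0) else 0) - 1
    = A p q r := by decide +kernel

theorem P_aux : ∀ (p q : Bool), ∑ r, (Sm p q r ^ 2 - Sq p q r)
    = 24 * (if p then 1 else 0) + 24 * (if q then 1 else 0) := by decide +kernel

theorem Y_aux : ∀ (p q : Bool), ∑ r, Sm p q r * (A p q r * (A p q r - 1))
    = 360 + 30 * (if p then 1 else 0) + 30 * (if q then 1 else 0) := by decide +kernel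

theorem S_aux : ∀ (p q : Bool), ∑ r, (A p q r + 1) * A p q r * (A p q r - 1) * (A p q r - 2)
    = 1680 := by decide +kernel

theorem D_aux : ∀ (p q : Bool), ∑ r, (A p q r + 1)
    = 26 + (if p then 1 else 0) + (if q then 1 else 0) := by decide +kernel

variable {n : ℕ}

theorem av_eq (j : Fin (n + 1)) (r : Fin 14) : av (tr n) (j, r) = A (pb j) (qb j) r := by
  have h : ((tr n).degree (j, r) : ℤ) = ∑ u ∈ (tr n).neighborFinset (j, r), 1 := by
    rw [← card_neighborFinset_eq_degree, Finset.card_eq_sum_ones]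
    push_cast
    rfl
  unfold av
  rw [h, nbsum (fun _ => 1) j r, ← deg_aux (pb j) (qb j) r]
  congr 1
  unfold nxt prv pb qb
  simp only [dite_eq_ite, decide_eq_true_eq]

theorem nxt_av (f : ℤ → ℤ) (hf : f 1 = 1) (j : Fin (n + 1)) :
    nxt (fun u => f (av (tr n) u)) j = if qb j then 1 else 0 := by
  unfold nxt qb
  by_cases h : j.val + 1 < n + 1
  · rw [dif_pos h]
    change f (av (tr n) (⟨j.val + 1, h⟩, 2)) = _
    rw [av_eq]
    have : pb (⟨j.val + 1, h⟩ : Fin (n + 1)) = true := by unfold pb; simp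
    rw [this]
    simp [A, h, hf]
  · rw [dif_neg h]
    simp only [h, decide_false, Bool.false_eq_true, if_false]

theorem prv_av (f : ℤ → ℤ) (hf : f 1 = 1) (j : Fin (n + 1)) :
    prv (fun u => f (av (tr n) u)) j = if pb j then 1 else 0 := by
  unfold prv pb
  by_cases h : 1 ≤ j.val
  · rw [dif_pos h]
    change f (av (tr n) (⟨j.val - 1, by omega⟩, 8)) = _
    rw [av_eq]
    have : qb (⟨j.val - 1, by omega⟩ : Fin (n + 1)) = true := by unfold qb; simp; omega
    rw [this]
    simp [A, h, hf]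
  · rw [dif_neg h]
    simp only [h, decide_false, Bool.false_eq_true, if_false]

theorem sum_av (j : Fin (n + 1)) (r : Fin 14) :
    ∑ u ∈ (tr n).neighborFinset (j, r), av (tr n) u = Sm (pb j) (qb j) r := by
  rw [nbsum]
  unfold Sm
  rw [show (nxt (av (tr n)) j) = nxt (fun u => id (av (tr n) u)) j from rfl, nxt_av id rfl j,
    show (prv (av (tr n)) j) = prv (fun u => id (av (tr n) u)) j from rfl, prv_av id rfl j]
  simp only [av_eq]

theorem sum_av_sq (j : Fin (n + 1)) (r : Fin 14) :
    ∑ u ∈ (tr n).neighborFinset (j, r), av (tr n) u ^ 2 = Sq (pb j) (qb j) r := by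
  rw [nbsum]
  unfold Sq
  rw [nxt_av (fun x => x ^ 2) (by norm_num) j, prv_av (fun x => x ^ 2) (by norm_num) j]
  simp only [av_eq]

theorem sum_pb : ∑ j : Fin (n + 1), (if pb j then (1 : ℤ) else 0) = n := by
  rw [Fin.sum_univ_succ]
  simp [pb]

theorem sum_qb : ∑ j : Fin (n + 1), (if qb j then (1 : ℤ) else 0) = n := by
  rw [Fin.sum_univ_castSucc]
  simp [qb]

theorem blk01 : blk 0 1 := by decide

theorem blk0r : ∀ r : Fin 14, r ≠ 0 → r ≤ 7 → blk 0 r := by decide

theorem blk1r : ∀ r : Fin 14, ¬ r ≤ 7 → blk 1 r := by decide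

theorem connected_tr : (tr n).Connected := by
  have h00 : ∀ (j : Fin (n + 1)) (r : Fin 14), (tr n).Reachable (j, 0) (j, r) := by
    intro j r
    have h1 : (tr n).Reachable (j, 0) (j, 1) := SimpleGraph.Adj.reachable (Or.inl ⟨rfl, blk01⟩)
    by_cases hr0 : r = 0
    · rw [hr0]
    · by_cases hr : r ≤ 7
      · exact SimpleGraph.Adj.reachable (Or.inl ⟨rfl, blk0r r hr0 hr⟩)
      · exact h1.trans (SimpleGraph.Adj.reachable (Or.inl ⟨rfl, blk1r r hr⟩))
  have h0 : ∀ k : ℕ, ∀ hk : k < n + 1, (tr n).Reachable (⟨0, by omega⟩, 0) (⟨k, hk⟩, 0) := by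
    intro k
    induction k with
    | zero => intro hk; exact SimpleGraph.Reachable.refl _
    | succ k ih =>
      intro hk
      have a1 := ih (by omega)
      have a2 := h00 (⟨k, by omega⟩ : Fin (n + 1)) 8
      have a3 : (tr n).Reachable ((⟨k, by omega⟩ : Fin (n + 1)), (8 : Fin 14))
          ((⟨k + 1, hk⟩ : Fin (n + 1)), (2 : Fin 14)) :=
        SimpleGraph.Adj.reachable (Or.inr (Or.inl ⟨rfl, rfl, rfl⟩))
      have a4 := h00 (⟨k + 1, hk⟩ : Fin (n + 1)) 2
      exact ((a1.trans a2).trans a3).trans a4.symm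
  have h : ∀ x, (tr n).Reachable (⟨0, by omega⟩, 0) x := by
    rintro ⟨j, r⟩
    exact (h0 j.val j.2).trans (h00 j r)
  have : Nonempty (Fin (n + 1) × Fin 14) := ⟨(⟨0, by omega⟩, 0)⟩
  exact ⟨fun x y => (h x).symm.trans (h y)⟩

theorem isTree_tr (n : ℕ) : (tr n).IsTree := by
  rw [SimpleGraph.isTree_iff_connected_and_card]
  refine ⟨connected_tr, ?_⟩
  have h1 := (tr n).sum_degrees_eq_twice_card_edges
  have h2 : ((∑ v, (tr n).degree v : ℕ) : ℤ) = 28 * n + 26 := by
    push_cast
    have : ∀ v, ((tr n).degree v : ℤ) = av (tr n) v + 1 := by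
      intro v; unfold av; ring
    rw [Finset.sum_congr rfl (fun v _ => this v), Fintype.sum_prod_type]
    simp only [av_eq, D_aux]
    rw [Finset.sum_add_distrib, Finset.sum_add_distrib, sum_pb, sum_qb]
    simp
    ring
  rw [h1] at h2
  have h3 : Nat.card (tr n).edgeSet = (tr n).edgeFinset.card := by
    rw [Nat.card_eq_fintype_card, ← Set.toFinset_card]
    rfl
  rw [h3]
  have h4 : Nat.card (Fin (n + 1) × Fin 14) = (n + 1) * 14 := by simp
  rw [h4]
  push_cast at h2
  omega

theorem P_tr (n : ℕ) : (cP (tr n) : ℤ) = 24 * n := by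
  have h := formula_P (tr n) (isTree_tr n).isAcyclic
  rw [Fintype.sum_prod_type] at h
  simp only [sum_av, sum_av_sq, P_aux] at h
  rw [Finset.sum_add_distrib, ← Finset.mul_sum, ← Finset.mul_sum, sum_pb, sum_qb] at h
  linarith

theorem S_tr (n : ℕ) : (cS (tr n) : ℤ) = 70 * n + 70 := by
  have h := formula_S (tr n)
  rw [Fintype.sum_prod_type] at h
  simp only [av_eq, S_aux] at h
  simp at h
  linarith

theorem Y_tr (n : ℕ) : (cY (tr n) : ℤ) = 210 * n + 180 := by
  have h := formula_Y (tr n) (isTree_tr n).isAcyclic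
  simp only [← Finset.sum_mul] at h
  rw [Fintype.sum_prod_type] at h
  simp only [sum_av, av_eq, Y_aux] at h
  rw [Finset.sum_add_distrib, Finset.sum_add_distrib, ← Finset.mul_sum, ← Finset.mul_sum,
    sum_pb, sum_qb] at h
  simp at h
  linarith

end Pool.Agent.Q117.YT
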