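import Pool.Agent.Q117.YT.Count

set_option linter.unusedSectionVars false

namespace Pool.Agent.Q117.YT

open SimpleGraph Finset

variable {V : Type} [Fintype V] [DecidableEq V] (G : SimpleGraph V) [DecidableRel G.Adj]

theorem card_nb (v : V) : Nat.card (G.neighborSet v) = G.degree v := by
  rw [Nat.card_eq_fintype_card, card_neighborSet_eq_degree]

theorem card_nb_ne {v u : V} (h : G.Adj v u) :
    Nat.card {w : G.neighborSet u // w.1 ≠ v} = G.degree u - 1 := by
  have h1 : Nat.card {w : G.neighborSet u // w.1 ≠ v}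
      = Nat.card {w : V // w ∈ (G.neighborFinset u).erase v} := by
    apply Nat.card_congr
    exact
      { toFun := fun w => ⟨w.1.1, by
          rw [Finset.mem_erase, mem_neighborFinset]; exact ⟨w.2, w.1.2⟩⟩
        invFun := fun w => ⟨⟨w.1, by
          have := w.2; rw [Finset.mem_erase, mem_neighborFinset] at this; exact this.2⟩, by
          have := w.2; rw [Finset.mem_erase] at this; exact this.1⟩
        left_inv := fun w => rfl
        right_inv := fun w => rfl }
  rw [h1, Nat.card_eq_fintype_card, Fintype.card_coe, Finset.card_erase_of_mem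
    (by rw [mem_neighborFinset]; exact h.symm), card_neighborFinset_eq_degree]

theorem card_emb (k : ℕ) {α : Type} [Finite α] :
    Nat.card (Fin k ↪ α) = (Nat.card α).descFactorial k := by
  classical
  cases nonempty_fintype α
  rw [Nat.card_eq_fintype_card, Nat.card_eq_fintype_card, Fintype.card_embedding_eq,
    Fintype.card_fin]

theorem card_starD : Nat.card (StarD G) = ∑ v, (G.degree v).descFactorial 4 := by
  rw [Nat.card_sigma]
  apply Finset.sum_congr rfl
  intro v _
  rw [card_emb, card_nb]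

theorem card_YD : Nat.card (YD G) = ∑ v, ∑ u ∈ G.neighborFinset v,
    (G.degree u - 1) * (G.degree v - 1).descFactorial 2 := by
  rw [Nat.card_sigma]
  apply Finset.sum_congr rfl
  intro v _
  rw [Nat.card_sigma]
  have h : ∀ u : G.neighborSet v, Nat.card ({w : G.neighborSet u.1 // w.1 ≠ v} ×
      (Fin 2 ↪ {x : G.neighborSet v // x ≠ u}))
      = (G.degree u.1 - 1) * (G.degree v - 1).descFactorial 2 := by
    intro u
    rw [Nat.card_prod, card_nb_ne G u.2, card_emb]
    congr 2
    have h2 : Nat.card {x : G.neighborSet v // x ≠ u}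
        = Nat.card {w : G.neighborSet v // w.1 ≠ u.1} := by
      apply Nat.card_congr
      exact Equiv.subtypeEquivRight (fun x => by rw [Ne, Subtype.ext_iff])
    rw [h2]
    exact card_nb_ne G (G.adj_symm u.2)
  rw [Finset.sum_congr rfl (fun u _ => h u)]
  rw [← Finset.sum_coe_sort (G.neighborFinset v)]
  apply Fintype.sum_equiv (Equiv.subtypeEquivRight (fun x => by simp))
  intro x
  rfl

theorem card_PD : Nat.card (PD G) = ∑ v, ∑ p ∈ ((G.neighborFinset v) ×ˢ (G.neighborFinset v)).filter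
      (fun p => p.1 ≠ p.2), (G.degree p.1 - 1) * (G.degree p.2 - 1) := by
  rw [Nat.card_sigma]
  apply Finset.sum_congr rfl
  intro v _
  rw [Nat.card_sigma]
  have h : ∀ p : {p : G.neighborSet v × G.neighborSet v // p.1 ≠ p.2},
      Nat.card ({w : G.neighborSet p.1.1.1 // w.1 ≠ v} × {w : G.neighborSet p.1.2.1 // w.1 ≠ v})
      = (G.degree p.1.1.1 - 1) * (G.degree p.1.2.1 - 1) := by
    intro p
    rw [Nat.card_prod, card_nb_ne G p.1.1.2, card_nb_ne G p.1.2.2]
  rw [Finset.sum_congr rfl (fun u _ => h u)]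
  refine Finset.sum_bij (fun p _ => (p.1.1.1, p.1.2.1)) ?_ ?_ ?_ ?_
  · intro p _
    rw [Finset.mem_filter, Finset.mem_product]
    simp only [mem_neighborFinset]
    exact ⟨⟨p.1.1.2, p.1.2.2⟩, fun h => p.2 (Subtype.ext h)⟩
  · intro p _ q _ h
    have h1 := congrArg Prod.fst h
    have h2 := congrArg Prod.snd h
    exact Subtype.ext (Prod.ext (Subtype.ext h1) (Subtype.ext h2))
  · rintro ⟨x, y⟩ hxy
    rw [Finset.mem_filter, Finset.mem_product] at hxy
    simp only [mem_neighborFinset] at hxy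
    exact ⟨⟨(⟨x, hxy.1.1⟩, ⟨y, hxy.1.2⟩), fun h => hxy.2 (congrArg Subtype.val h)⟩,
      Finset.mem_univ _, rfl⟩
  · intro p _
    rfl

/-- `deg v - 1` as an integer -/
def av (v : V) : ℤ := (G.degree v : ℤ) - 1

theorem descFactorial_four (d : ℕ) :
    ((d.descFactorial 4 : ℕ) : ℤ) = d * (d - 1) * (d - 2) * (d - 3) := by
  rcases d with _ | _ | _ | d
  · simp
  · simp
  · simp
  · simp only [Nat.descFactorial_succ, Nat.descFactorial_zero]
    push_cast
    ring

theorem descFactorial_two' (d : ℕ) (hd : 1 ≤ d) :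
    (((d - 1).descFactorial 2 : ℕ) : ℤ) = (d - 1) * (d - 2) := by
  obtain ⟨e, rfl⟩ : ∃ e, d = e + 1 := ⟨d - 1, by omega⟩
  rcases e with _ | e
  · simp
  · simp only [Nat.descFactorial_succ, Nat.descFactorial_zero, Nat.add_sub_cancel]
    have h0 : e + 1 - 0 = e + 1 := by omega
    rw [h0]
    push_cast
    ring

theorem formula_S : 24 * (cS G : ℤ) = ∑ v, (av G v + 1) * av G v * (av G v - 1) * (av G v - 2) := by
  have h := card_copy_eq G starT
  rw [aut_star, Nat.card_congr (starE G), card_starD] at h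
  have h2 : ((∑ v, (G.degree v).descFactorial 4 : ℕ) : ℤ) = 24 * (cS G : ℤ) := by
    rw [h]; push_cast; rfl
  rw [← h2]
  push_cast
  apply Finset.sum_congr rfl
  intro v _
  rw [descFactorial_four]
  unfold av
  ring

theorem formula_Y (hG : G.IsAcyclic) : 2 * (cY G : ℤ)
    = ∑ v, ∑ u ∈ G.neighborFinset v, av G u * (av G v * (av G v - 1)) := by
  have h := card_copy_eq G yT
  rw [aut_y, Nat.card_congr (yE hG), card_YD] at h
  have h2 : ((∑ v, ∑ u ∈ G.neighborFinset v,
    (G.degree u - 1) * (G.degree v - 1).descFactorial 2 : ℕ) : ℤ) = 2 * (cY G : ℤ) := by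
    rw [h]; push_cast; rfl
  rw [← h2]
  push_cast
  apply Finset.sum_congr rfl
  intro v _
  apply Finset.sum_congr rfl
  intro u hu
  rw [mem_neighborFinset] at hu
  have h1 : 1 ≤ G.degree u := by
    rw [Nat.one_le_iff_ne_zero, ← Nat.pos_iff_ne_zero, degree_pos_iff_exists_adj]
    exact ⟨v, hu.symm⟩
  have h3 : 1 ≤ G.degree v := by
    rw [Nat.one_le_iff_ne_zero, ← Nat.pos_iff_ne_zero, degree_pos_iff_exists_adj]
    exact ⟨u, hu⟩
  rw [descFactorial_two' _ h3, Nat.cast_sub h1]
  unfold av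
  push_cast
  ring

theorem formula_P (hG : G.IsAcyclic) : 2 * (cP G : ℤ)
    = ∑ v, ((∑ u ∈ G.neighborFinset v, av G u) ^ 2 - ∑ u ∈ G.neighborFinset v, av G u ^ 2) := by
  have h := card_copy_eq G (pathGraph 5)
  rw [aut_path, Nat.card_congr (pE hG), card_PD] at h
  have h2 : ((∑ v, ∑ p ∈ ((G.neighborFinset v) ×ˢ (G.neighborFinset v)).filter
      (fun p => p.1 ≠ p.2), (G.degree p.1 - 1) * (G.degree p.2 - 1) : ℕ) : ℤ)
      = 2 * (cP G : ℤ) := by
    rw [h]; push_cast; rfl
  rw [← h2]
  push_cast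
  apply Finset.sum_congr rfl
  intro v _
  have hd : ∀ u ∈ G.neighborFinset v, ((G.degree u - 1 : ℕ) : ℤ) = av G u := by
    intro u hu
    rw [mem_neighborFinset] at hu
    have h1 : 1 ≤ G.degree u := by
      rw [Nat.one_le_iff_ne_zero, ← Nat.pos_iff_ne_zero, degree_pos_iff_exists_adj]
      exact ⟨v, hu.symm⟩
    rw [Nat.cast_sub h1]
    rfl
  have h3 : ∀ p ∈ ((G.neighborFinset v) ×ˢ (G.neighborFinset v)).filter
      (fun p => p.1 ≠ p.2), ((G.degree p.1 - 1 : ℕ) : ℤ) * ((G.degree p.2 - 1 : ℕ) : ℤ)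
      = av G p.1 * av G p.2 := by
    intro p hp
    rw [Finset.mem_filter, Finset.mem_product] at hp
    rw [hd _ hp.1.1, hd _ hp.1.2]
  rw [Finset.sum_congr rfl h3]
  have h4 : (∑ u ∈ G.neighborFinset v, av G u) ^ 2
      = ∑ p ∈ (G.neighborFinset v) ×ˢ (G.neighborFinset v), av G p.1 * av G p.2 := by
    rw [sq, Finset.sum_mul_sum, Finset.sum_product]
  rw [h4, ← Finset.sum_filter_add_sum_filter_not ((G.neighborFinset v) ×ˢ (G.neighborFinset v))
    (fun p => p.1 ≠ p.2)]
  have h5 : ∑ p ∈ ((G.neighborFinset v) ×ˢ (G.neighborFinset v)).filter (fun p => ¬ (p.1 ≠ p.2)),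
      av G p.1 * av G p.2 = ∑ u ∈ G.neighborFinset v, av G u ^ 2 := by
    refine Finset.sum_bij' (fun p _ => p.1) (fun u _ => (u, u)) ?_ ?_ ?_ ?_ ?_
    · intro p hp
      rw [Finset.mem_filter, Finset.mem_product] at hp
      exact hp.1.1
    · intro u hu
      rw [Finset.mem_filter, Finset.mem_product]
      exact ⟨⟨hu, hu⟩, fun h => h rfl⟩
    · intro p hp
      rw [Finset.mem_filter, Finset.mem_product] at hp
      have := not_not.1 hp.2
      exact Prod.ext rfl this
    · intro u _
      rfl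
    · intro p hp
      rw [Finset.mem_filter] at hp
      have := not_not.1 hp.2
      rw [← this]; ring
  rw [h5]
  ring

end Pool.Agent.Q117.YT
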