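import Pool.Agent.Q117.YT.Formula

/-! The inequality `Y ≤ 9 S + P + 8` for trees. -/

set_option linter.unusedSectionVars false

namespace Pool.Agent.Q117.YT

open SimpleGraph Finset

/-- the edge potential -/
def Phi (a x : ℤ) : ℤ :=
  if a = 0 ∧ x = 0 then 0 else if x = 0 then -8 else if a = 0 then 8
    else a ^ 2 - x ^ 2 - 6 * min a 4 + 6 * min x 4

theorem Phi_antisymm (a x : ℤ) : Phi a x = - Phi x a := by
  unfold Phi
  by_cases ha : a = 0 <;> by_cases hx : x = 0 <;> simp [ha, hx]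
  ring

/-- the numerical core of the vertex inequality -/
theorem core (a i σ s : ℤ) (ha : 1 ≤ a) (hi0 : 0 ≤ i) (hi : i ≤ a + 1) (h1 : i ≤ σ)
    (h2 : σ ≤ 4 * i) (h3 : σ ≤ s) :
    4 * (a * (a - 1)) * s - 3 * ((a + 1) * a * (a - 1) * (a - 2)) - 4 * s ^ 2
      + i * (4 * a ^ 2 - 24 * min a 4 + 32) + 24 * σ ≤ 64 := by
  have hs : 0 ≤ s := by linarith
  rcases lt_or_ge a 5 with h5 | h5
  · have : a = 1 ∨ a = 2 ∨ a = 3 ∨ a = 4 := by omega
    rcases this with rfl | rfl | rfl | rfl
    · norm_num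
      nlinarith [sq_nonneg (σ - 3), mul_nonneg (sub_nonneg.2 h3) (by linarith : (0:ℤ) ≤ s + σ)]
    · norm_num
      rcases eq_or_lt_of_le hs with h0 | h0
      · nlinarith
      · nlinarith [sq_nonneg (s - 4)]
    · norm_num
      rcases lt_or_ge i 2 with hi2 | hi2
      · nlinarith [sq_nonneg (s - 3)]
      · nlinarith [sq_nonneg (s - 6)]
    · norm_num
      nlinarith [sq_nonneg (s - 9)]
  · rcases eq_or_lt_of_le h5 with h | h
    · subst h
      norm_num
      rcases le_or_gt σ 21 with h6 | h6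
      · nlinarith [sq_nonneg (s - 10)]
      · nlinarith [mul_nonneg (by linarith : (0:ℤ) ≤ s - 22) (by linarith : (0:ℤ) ≤ s + 2)]
    · have hm : min a 4 = 4 := by omega
      rw [hm]
      have hb1 : i * (4 * a ^ 2 - 24 * 4 + 32) + 24 * σ ≤ (a + 1) * (4 * a ^ 2 + 32) := by
        nlinarith [mul_nonneg (sub_nonneg.2 hi) (by positivity : (0:ℤ) ≤ 4 * a ^ 2 + 32)]
      have hb2 : 4 * (a * (a - 1)) * s - 4 * s ^ 2 ≤ a ^ 2 * (a - 1) ^ 2 := by
        nlinarith [sq_nonneg (2 * s - a * (a - 1))]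
      obtain ⟨b, rfl⟩ : ∃ b : ℤ, a = b + 6 := ⟨a - 6, by ring⟩
      have hb : 0 ≤ b := by linarith
      have e : (b + 6) ^ 2 * (b + 6 - 1) ^ 2
          - 3 * ((b + 6 + 1) * (b + 6) * (b + 6 - 1) * (b + 6 - 2))
          + (b + 6 + 1) * (4 * (b + 6) ^ 2 + 32)
          = -(2 * b ^ 4 + 40 * b ^ 3 + 280 * b ^ 2 + 742 * b + 388) := by
        ring
      have hp : 0 ≤ 2 * b ^ 4 + 40 * b ^ 3 + 280 * b ^ 2 + 742 * b + 388 := by positivity
      linarith

/-- the vertex inequality -/
theorem vertex_ineq {α : Type} (N : Finset α) (x : α → ℤ) (hx : ∀ u ∈ N, 0 ≤ x u) (a : ℤ)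
    (ha : a = (N.card : ℤ) - 1) (ha0 : 1 ≤ a) :
    4 * (a * (a - 1)) * (∑ u ∈ N, x u) - 3 * ((a + 1) * a * (a - 1) * (a - 2))
      - 4 * (∑ u ∈ N, x u) ^ 2 + 4 * ∑ u ∈ N, x u ^ 2 + 4 * ∑ u ∈ N, Phi a (x u)
      ≤ 32 * (1 - a) := by
  have key : ∀ u ∈ N, 4 * x u ^ 2 + 4 * Phi a (x u)
      = (if 1 ≤ x u then 1 else 0) * (4 * a ^ 2 - 24 * min a 4 + 32) + 24 * min (x u) 4 - 32 := by
    intro u hu
    unfold Phi
    have h0 := hx u hu
    rcases eq_or_lt_of_le h0 with h | h
    · rw [← h]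
      have : a ≠ 0 := by omega
      simp [this]
    · have h1 : 1 ≤ x u := by omega
      have h2 : x u ≠ 0 := by omega
      have h3 : a ≠ 0 := by omega
      simp only [h2, h3, h1, if_true, and_false, if_false]
      ring
  have hsum : 4 * ∑ u ∈ N, x u ^ 2 + 4 * ∑ u ∈ N, Phi a (x u)
      = (∑ u ∈ N, (if 1 ≤ x u then (1:ℤ) else 0)) * (4 * a ^ 2 - 24 * min a 4 + 32)
        + 24 * (∑ u ∈ N, min (x u) 4) - 32 * (a + 1) := by
    rw [Finset.mul_sum, Finset.mul_sum, ← Finset.sum_add_distrib, Finset.sum_congr rfl key,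
      Finset.sum_sub_distrib, Finset.sum_add_distrib, Finset.sum_mul, Finset.mul_sum,
      Finset.sum_const, ha]
    simp only [nsmul_eq_mul]
    ring
  have c := core a (∑ u ∈ N, (if 1 ≤ x u then (1:ℤ) else 0)) (∑ u ∈ N, min (x u) 4)
    (∑ u ∈ N, x u) ha0 (Finset.sum_nonneg (fun u _ => by split_ifs <;> norm_num))
    (by
      calc ∑ u ∈ N, (if 1 ≤ x u then (1:ℤ) else 0) ≤ ∑ u ∈ N, (1:ℤ) :=
            Finset.sum_le_sum (fun u _ => by split_ifs <;> norm_num)
        _ = a + 1 := by rw [ha]; simp)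
    (Finset.sum_le_sum (fun u hu => by
      have h0 := hx u hu
      split_ifs with h
      · exact le_min h (by norm_num)
      · exact le_min h0 (by norm_num)))
    (by
      rw [Finset.mul_sum]
      exact Finset.sum_le_sum (fun u hu => by
        have h0 := hx u hu
        split_ifs with h
        · simp
        · have : x u = 0 := by omega
          simp [this]))
    (Finset.sum_le_sum (fun u _ => min_le_left _ _))
  linarith

variable {V : Type} [Fintype V] [DecidableEq V] (G : SimpleGraph V) [DecidableRel G.Adj]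

theorem sum_darts_antisymm (φ : V → V → ℤ) (h : ∀ u v, φ u v = - φ v u) :
    ∑ v, ∑ u ∈ G.neighborFinset v, φ v u = 0 := by
  have e : ∀ ψ : V → V → ℤ, ∑ v, ∑ u ∈ G.neighborFinset v, ψ v u
      = ∑ v, ∑ u, if G.Adj v u then ψ v u else 0 := by
    intro ψ
    apply Finset.sum_congr rfl
    intro v _
    rw [← Finset.sum_filter]
    apply Finset.sum_congr
    · ext u; simp
    · intro _ _; rfl
  have h1 : ∑ v, ∑ u, (if G.Adj v u then φ v u else 0)
      = - ∑ v, ∑ u, (if G.Adj v u then φ v u else 0) := by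
    conv_lhs => rw [Finset.sum_comm]
    rw [← Finset.sum_neg_distrib]
    apply Finset.sum_congr rfl
    intro v _
    rw [← Finset.sum_neg_distrib]
    apply Finset.sum_congr rfl
    intro u _
    by_cases hc : G.Adj v u
    · rw [if_pos hc, if_pos hc.symm, h u v]
    · have hc' : ¬ G.Adj u v := fun h' => hc h'.symm
      rw [if_neg hc, if_neg hc']; simp
  rw [e]
  linarith

theorem av_nonneg {u v : V} (h : G.Adj v u) : 0 ≤ av G u := by
  have h1 : 1 ≤ G.degree u := by
    rw [Nat.one_le_iff_ne_zero, ← Nat.pos_iff_ne_zero, degree_pos_iff_exists_adj]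
    exact ⟨v, h.symm⟩
  unfold av
  have : (1:ℤ) ≤ G.degree u := by exact_mod_cast h1
  linarith

/-- the local inequality at a vertex of the graph -/
theorem local_ineq (v : V) :
    4 * (av G v * (av G v - 1)) * (∑ u ∈ G.neighborFinset v, av G u)
      - 3 * ((av G v + 1) * av G v * (av G v - 1) * (av G v - 2))
      - 4 * (∑ u ∈ G.neighborFinset v, av G u) ^ 2
      + 4 * ∑ u ∈ G.neighborFinset v, av G u ^ 2
      + 4 * ∑ u ∈ G.neighborFinset v, Phi (av G v) (av G u) ≤ 32 * (1 - av G v) := by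
  have hav : av G v = ((G.neighborFinset v).card : ℤ) - 1 := by
    rw [card_neighborFinset_eq_degree]; rfl
  have hx : ∀ u ∈ G.neighborFinset v, 0 ≤ av G u := by
    intro u hu
    rw [mem_neighborFinset] at hu
    exact av_nonneg G hu
  rcases lt_or_ge (av G v) 1 with h | h
  · have hc : (G.neighborFinset v).card = 0 ∨ (G.neighborFinset v).card = 1 := by omega
    rcases hc with hc | hc
    · rw [hc] at hav
      have he : G.neighborFinset v = ∅ := Finset.card_eq_zero.1 hc
      rw [he]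
      push_cast at hav
      rw [hav]
      norm_num
    · obtain ⟨u, hu⟩ := Finset.card_eq_one.1 hc
      rw [hc] at hav
      push_cast at hav
      have hu0 : 0 ≤ av G u := hx u (by rw [hu]; simp)
      rw [hu, Finset.sum_singleton, Finset.sum_singleton, Finset.sum_singleton, hav]
      unfold Phi
      by_cases h0 : av G u = 0
      · simp [h0]
      · simp [h0]
  · exact vertex_ineq (G.neighborFinset v) (av G) hx (av G v) hav h

theorem main_ineq (hG : G.IsTree) : (cY G : ℤ) ≤ 9 * cS G + cP G + 8 := by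
  have hY := formula_Y G hG.isAcyclic
  have hP := formula_P G hG.isAcyclic
  have hS := formula_S G
  have hΦ := sum_darts_antisymm G (fun v u => Phi (av G v) (av G u))
    (fun u v => Phi_antisymm _ _)
  have hsum := Finset.sum_le_sum (s := (univ : Finset V)) (fun v _ => local_ineq G v)
  have hdeg : ∑ v, av G v = (Fintype.card V : ℤ) - 2 := by
    have h1 := G.sum_degrees_eq_twice_card_edges
    have h2 := hG.card_edgeFinset
    have h3 : ((∑ v, G.degree v : ℕ) : ℤ) = 2 * ((Fintype.card V : ℤ) - 1) := by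
      rw [h1, ← h2]; push_cast; ring
    unfold av
    rw [Finset.sum_sub_distrib]
    push_cast at h3
    rw [h3]
    simp
    ring
  have hR : ∑ v, 32 * (1 - av G v) = 64 := by
    rw [← Finset.mul_sum, Finset.sum_sub_distrib, hdeg]
    simp
  rw [hR] at hsum
  have hL : ∑ v, (4 * (av G v * (av G v - 1)) * (∑ u ∈ G.neighborFinset v, av G u)
      - 3 * ((av G v + 1) * av G v * (av G v - 1) * (av G v - 2))
      - 4 * (∑ u ∈ G.neighborFinset v, av G u) ^ 2
      + 4 * ∑ u ∈ G.neighborFinset v, av G u ^ 2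
      + 4 * ∑ u ∈ G.neighborFinset v, Phi (av G v) (av G u))
      = 8 * (cY G : ℤ) - 72 * cS G - 8 * cP G := by
    have e1 : ∑ v, 4 * (av G v * (av G v - 1)) * (∑ u ∈ G.neighborFinset v, av G u)
        = 8 * (cY G : ℤ) := by
      have : (8 : ℤ) * cY G = 4 * (2 * cY G) := by ring
      rw [this, hY, Finset.mul_sum]
      apply Finset.sum_congr rfl
      intro v _
      rw [Finset.mul_sum, Finset.mul_sum]
      apply Finset.sum_congr rfl
      intro u _
      ring
    have e2 : ∑ v, 3 * ((av G v + 1) * av G v * (av G v - 1) * (av G v - 2))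
        = 72 * (cS G : ℤ) := by
      have : (72 : ℤ) * cS G = 3 * (24 * cS G) := by ring
      rw [this, hS, Finset.mul_sum]
    have e3 : ∑ v, (4 * (∑ u ∈ G.neighborFinset v, av G u) ^ 2
        - 4 * ∑ u ∈ G.neighborFinset v, av G u ^ 2) = 8 * (cP G : ℤ) := by
      have : (8 : ℤ) * cP G = 4 * (2 * cP G) := by ring
      rw [this, hP, Finset.mul_sum]
      apply Finset.sum_congr rfl
      intro v _
      ring
    have e4 : ∑ v, 4 * ∑ u ∈ G.neighborFinset v, Phi (av G v) (av G u) = 0 := by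
      rw [← Finset.mul_sum, hΦ, mul_zero]
    rw [Finset.sum_add_distrib, e4, add_zero]
    rw [← e1, ← e2, ← e3, ← Finset.sum_sub_distrib, ← Finset.sum_sub_distrib]
    apply Finset.sum_congr rfl
    intro v _
    ring
  rw [hL] at hsum
  linarith

end Pool.Agent.Q117.YT
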