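import Pool.Agent.Q117.YT.Defs

/-! The region of limiting profiles and the hull of the millipede points. -/

namespace Pool.Agent.Q117.YT

open SimpleGraph Filter Topology

/-- the number of all subtrees on five vertices -/
noncomputable def cZ {V : Type} [Fintype V] (T : SimpleGraph V) : ℝ :=
  (cP T : ℝ) + (cS T : ℝ) + (cY T : ℝ)

/-- the `5`-profile of a tree -/
noncomputable def profile {V : Type} [Fintype V] (T : SimpleGraph V) : ℝ × ℝ × ℝ :=
  ((cP T : ℝ) / cZ T, (cS T : ℝ) / cZ T, (cY T : ℝ) / cZ T)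

/-- limits of `5`-profiles along sequences of trees whose orders tend to infinity -/
def Delta : Set (ℝ × ℝ × ℝ) :=
  {p | ∃ (V : ℕ → Type) (_ : ∀ n, Fintype (V n)) (T : ∀ n, SimpleGraph (V n)),
    (∀ n, (T n).IsTree) ∧ Tendsto (fun n => Fintype.card (V n)) atTop atTop ∧
    Tendsto (fun n => profile (T n)) atTop (𝓝 p)}

/-- the limiting path and star densities -/
def PP : Set (ℝ × ℝ) := {q | ∃ p ∈ Delta, q = (p.1, p.2.1)}

/-- the millipede points -/
noncomputable def mill (d : ℕ) : ℝ × ℝ :=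
  (((d : ℝ) + 1) ^ 2 / (((d + 2).choose 4 : ℝ) + ((d : ℝ) + 1) ^ 3),
   ((d + 2).choose 4 : ℝ) / (((d + 2).choose 4 : ℝ) + ((d : ℝ) + 1) ^ 3))

/-- the convex hull of `(0, 1)` and the millipede points -/
def CC : Set (ℝ × ℝ) := convexHull ℝ ({((0 : ℝ), (1 : ℝ))} ∪ Set.range mill)

end Pool.Agent.Q117.YT
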